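import Pool.Agent.H55.CG.Targets

set_option autoImplicit false

open MeasureTheory ProbabilityTheory Filter Topology
open Pool.Agent.H95 Pool.Agent.H95.Cop

namespace Pool.Agent.H59.CG.MOM

open Pool.Agent.H55.CG

/-- the normalised logarithm of the moment -/
noncomputable def FF (μ : Measure ℝ) (g s lam : ℝ) : ℝ :=
  (LM μ (-(2 * lam * s)) - 2 * s * g * lam ^ 2) / lam ^ 2

theorem Mo_eq (μ : Measure ℝ) [IsProbabilityMeasure μ]
    (hexp : ∀ t : ℝ, Integrable (fun z => Real.exp (t * z)) μ) (g s lam : ℝ) (hl : 0 < lam) :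
    Mo (μ.map (fun z => -2 * lam * (z + g * lam))) s = Real.exp (FF μ g s lam * lam ^ 2) := by
  have hm : Measurable (fun z : ℝ => -2 * lam * (z + g * lam)) := by fun_prop
  unfold Mo
  rw [integral_map hm.aemeasurable (by fun_prop)]
  have h1 : ∀ z : ℝ, Real.exp (s * (-2 * lam * (z + g * lam))) =
      Real.exp (-(2 * lam * s) * z) * Real.exp (-(2 * s * g * lam ^ 2)) := by
    intro z
    rw [← Real.exp_add]
    congr 1
    ring
  simp_rw [h1]
  rw [integral_mul_const, ← exp_LM μ hexp, ← Real.exp_add]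
  congr 1
  unfold FF
  field_simp
  ring

theorem FF_tendsto (μ : Measure ℝ) [IsProbabilityMeasure μ]
    (hexp : ∀ t : ℝ, Integrable (fun z => Real.exp (t * z)) μ)
    (hmean : ∫ z, z ∂μ = 0) (hvar : ∫ z, z ^ 2 ∂μ = 1) (g s : ℝ) (hs : 0 < s) :
    Tendsto (FF μ g s) (𝓝[>] 0) (𝓝 (2 * s ^ 2 - 2 * s * g)) := by
  have hL := LM_tendsto μ hexp hmean hvar
  have haux : Tendsto (fun lam : ℝ => -(2 * lam * s)) (𝓝[>] 0) (𝓝[≠] 0) := by
    apply tendsto_nhdsWithin_iff.mpr
    constructor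
    · have : Tendsto (fun lam : ℝ => -(2 * lam * s)) (𝓝 0) (𝓝 (-(2 * 0 * s))) := by
        apply Continuous.tendsto; fun_prop
      simp only [mul_zero, zero_mul, neg_zero] at this
      exact this.mono_left nhdsWithin_le_nhds
    · filter_upwards [self_mem_nhdsWithin] with lam hlam
      have : 0 < lam := hlam
      have : 0 < 2 * lam * s := by positivity
      simp only [Set.mem_compl_iff, Set.mem_singleton_iff]
      linarith
  have h1 := (hL.comp haux).mul_const (4 * s ^ 2)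
  have h2 := h1.sub_const (2 * s * g)
  have e : (1 / 2 : ℝ) * (4 * s ^ 2) - 2 * s * g = 2 * s ^ 2 - 2 * s * g := by ring
  rw [e] at h2
  refine h2.congr' ?_
  filter_upwards [self_mem_nhdsWithin] with lam hlam
  have hl : 0 < lam := hlam
  simp only [Function.comp_apply]
  unfold FF
  field_simp
  ring

theorem GG_tendsto : Tendsto (fun lam : ℝ => ((⌈32 / lam ^ 2⌉₊ : ℕ) : ℝ) * lam ^ 2) (𝓝[>] 0)
    (𝓝 32) := by
  have hup : Tendsto (fun lam : ℝ => 32 + lam ^ 2) (𝓝[>] 0) (𝓝 32) := by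
    have : Tendsto (fun lam : ℝ => 32 + lam ^ 2) (𝓝 0) (𝓝 (32 + 0 ^ 2)) := by
      apply Continuous.tendsto; fun_prop
    rw [zero_pow two_ne_zero, add_zero] at this
    exact this.mono_left nhdsWithin_le_nhds
  refine tendsto_of_tendsto_of_tendsto_of_le_of_le' tendsto_const_nhds hup ?_ ?_
  · filter_upwards [self_mem_nhdsWithin] with lam hlam
    have hl : 0 < lam := hlam
    have h := Nat.le_ceil (32 / lam ^ 2)
    have h2 : 0 < lam ^ 2 := by positivity
    rw [div_le_iff₀ h2] at h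
    exact h
  · filter_upwards [self_mem_nhdsWithin] with lam hlam
    have hl : 0 < lam := hlam
    have h2 : 0 < lam ^ 2 := by positivity
    have h0 : 0 ≤ 32 / lam ^ 2 := by positivity
    have h := (Nat.ceil_lt_add_one h0).le
    have h3 := mul_le_mul_of_nonneg_right h h2.le
    have h4 : (32 / lam ^ 2 + 1) * lam ^ 2 = 32 + lam ^ 2 := by field_simp
    linarith

theorem log8 : Real.log 8 < 3 := by
  have h : (8 : ℝ) = 2 ^ (3 : ℕ) := by norm_num
  rw [h, Real.log_pow]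
  have := Real.log_two_lt_d9
  push_cast
  linarith

theorem pf_MOM : T_MOM := by
  intro μ _ hexp hmean hvar γ δ q hγ1 hγ2 hδ hq hqδ
  have hγ : 0 < γ := by linarith
  have hq1 : (1 : ℝ) ≤ q := by exact_mod_cast hq
  have hδ1 : 640 * δ ≤ 1 := by nlinarith
  have hF := fun s (hs : 0 < s) => FF_tendsto μ hexp hmean hvar (γ + δ) s hs
  have hG := GG_tendsto
  have f1 := hF γ hγ
  have f2 := hF (γ / 2) (by positivity)
  have f3 := hF (2 * γ) (by positivity)
  have g1 := hG.mul f1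
  have g2 := hG.mul f2
  have g3 := hG.mul f3
  have g4 := g2.sub g1
  have g5 := g1.const_mul (4 * (q : ℝ) + 1)
  have l2 := Real.log_two_gt_d9
  have hγδ : 0 < γ * δ := mul_pos hγ hδ
  have hγδ1 : γ * δ ≤ δ := by nlinarith
  have c1 : 2 * γ ^ 2 - 2 * γ * (γ + δ) < 0 := by nlinarith
  have c2 : 2 * (γ / 2) ^ 2 - 2 * (γ / 2) * (γ + δ) < 0 := by nlinarith
  have c3 : 32 * (2 * (γ / 2) ^ 2 - 2 * (γ / 2) * (γ + δ)) -
      32 * (2 * γ ^ 2 - 2 * γ * (γ + δ)) < -(Real.log 8) := by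
    have := log8
    nlinarith
  have c4 : -18 < 32 * (2 * (γ / 2) ^ 2 - 2 * (γ / 2) * (γ + δ)) := by nlinarith
  have c5 : -(Real.log 2) < (4 * (q : ℝ) + 1) * (32 * (2 * γ ^ 2 - 2 * γ * (γ + δ))) := by
    have h1 : (4 * (q : ℝ) + 1) * (32 * (2 * γ ^ 2 - 2 * γ * (γ + δ))) =
        -(64 * (4 * q + 1) * (γ * δ)) := by ring
    rw [h1]
    have h2 : (4 * (q : ℝ) + 1) * (γ * δ) ≤ (5 * q) * δ :=
      mul_le_mul (by linarith) hγδ1 hγδ.le (by positivity)
    nlinarith
  have c6 : 32 * (2 * (2 * γ) ^ 2 - 2 * (2 * γ) * (γ + δ)) < 140 := by nlinarith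
  filter_upwards [self_mem_nhdsWithin, f1.eventually_lt_const c1, f2.eventually_lt_const c2,
    g4.eventually_lt_const c3, g2.eventually_const_lt c4, g5.eventually_const_lt c5,
    g3.eventually_lt_const c6] with lam hlam d1 d2 d3 d4 d5 d6
  intro ν hν ℓ hℓ
  have hl : 0 < lam := hlam
  have hl2 : 0 < lam ^ 2 := by positivity
  have hM : ∀ s, Mo ν s = Real.exp (FF μ (γ + δ) s lam * lam ^ 2) := by
    intro s
    rw [hν]
    exact Mo_eq μ hexp (γ + δ) s lam hl
  have hMp : ∀ s, Mo ν s ^ ℓ = Real.exp ((ℓ : ℝ) * lam ^ 2 * FF μ (γ + δ) s lam) := by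
    intro s
    rw [hM, ← Real.exp_nat_mul]
    congr 1
    ring
  rw [← hℓ] at d3 d4 d5 d6
  refine ⟨?_, ?_, ?_, ?_, ?_, ?_⟩
  · rw [hM, Real.exp_le_one_iff]
    exact mul_nonpos_of_nonpos_of_nonneg d1.le hl2.le
  · rw [hM, Real.exp_le_one_iff]
    exact mul_nonpos_of_nonpos_of_nonneg d2.le hl2.le
  · rw [hMp, hMp]
    have h8 : (1 / 8 : ℝ) = Real.exp (-(Real.log 8)) := by
      rw [Real.exp_neg, Real.exp_log (by norm_num)]
      norm_num
    rw [h8, ← Real.exp_add]
    refine Real.exp_le_exp.mpr ?_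
    linarith
  · rw [hMp]
    exact Real.exp_le_exp.mpr d4.le
  · rw [mul_comm (4 * q + 1) ℓ, pow_mul, hMp, ← Real.exp_nat_mul]
    have h2 : (1 / 2 : ℝ) = Real.exp (-(Real.log 2)) := by
      rw [Real.exp_neg, Real.exp_log (by norm_num)]
      norm_num
    rw [h2]
    refine Real.exp_le_exp.mpr ?_
    push_cast
    exact d5.le
  · rw [hMp]
    exact Real.exp_le_exp.mpr d6.le

end Pool.Agent.H59.CG.MOM
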