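import Pool.Agent.H55.CG.Targets

set_option autoImplicit false

open MeasureTheory ProbabilityTheory Filter Topology
open Pool.Agent.H95 Pool.Agent.H95.Cop

namespace Pool.Agent.H59.CG.PRD

open Pool.Agent.H55.CG

open Classical in
/-- the power of a group on its event -/
noncomputable def AA (K : PMF ℕ) (q ℓ : ℕ) (γ : ℝ) (t : Bool) (n : ℕ) (t' : Bool)
    (x : ℕ → ℝ) : ℝ := if Gd q ℓ t n x then gg K ℓ t n t' x ^ γ else 0

open Classical in
/-- the power of a pattern on its event -/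
noncomputable def JJ (K : PMF ℕ) (q ℓ : ℕ) (γ : ℝ) (L : List (ℕ × ℕ)) (x : ℕ → ℝ) : ℝ :=
  if GP q ℓ L x then ff K ℓ L x ^ γ else 0

theorem ff_nonneg (K : PMF ℕ) (ℓ : ℕ) (hgg : ∀ t n t' (x : ℕ → ℝ), 0 ≤ gg K ℓ t n t' x)
    (L : List (ℕ × ℕ)) : ∀ x : ℕ → ℝ, 0 ≤ ff K ℓ L x := by
  induction L with
  | nil => intro x; simp [ff]
  | cons p L ih =>
    intro x
    unfold ff
    exact mul_nonneg (mul_nonneg (hgg _ _ _ _) (hgg _ _ _ _)) (ih _)

theorem JJ_cons (K : PMF ℕ) (q ℓ : ℕ) (γ : ℝ)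
    (hgg : ∀ t n t' (x : ℕ → ℝ), 0 ≤ gg K ℓ t n t' x) (p : ℕ × ℕ) (L : List (ℕ × ℕ))
    (x : ℕ → ℝ) : JJ K q ℓ γ (p :: L) x = AA K q ℓ γ false p.1 true x *
      (fun y => AA K q ℓ γ true p.2 false y * JJ K q ℓ γ L (shift (2 * p.2 * ℓ) y))
        (shift (2 * p.1 * ℓ) x) := by
  have hs : shift (2 * p.2 * ℓ) (shift (2 * p.1 * ℓ) x) = shift (2 * (p.1 + p.2) * ℓ) x := by
    rw [shift_shift]
    congr 1
    ring
  beta_reduce
  rw [hs]
  have hff : ff K ℓ (p :: L) x = gg K ℓ false p.1 true x *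
      gg K ℓ true p.2 false (shift (2 * p.1 * ℓ) x) *
      ff K ℓ L (shift (2 * (p.1 + p.2) * ℓ) x) := rfl
  have hGP : GP q ℓ (p :: L) x ↔ (Gd q ℓ false p.1 x ∧
      Gd q ℓ true p.2 (shift (2 * p.1 * ℓ) x) ∧
      GP q ℓ L (shift (2 * (p.1 + p.2) * ℓ) x)) := Iff.rfl
  unfold JJ AA
  rw [hff]
  by_cases h1 : Gd q ℓ false p.1 x
  · by_cases h2 : Gd q ℓ true p.2 (shift (2 * p.1 * ℓ) x)
    · by_cases h3 : GP q ℓ L (shift (2 * (p.1 + p.2) * ℓ) x)
      · rw [if_pos (hGP.mpr ⟨h1, h2, h3⟩), if_pos h1, if_pos h2, if_pos h3,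
          Real.mul_rpow (mul_nonneg (hgg _ _ _ _) (hgg _ _ _ _)) (ff_nonneg K ℓ hgg _ _),
          Real.mul_rpow (hgg _ _ _ _) (hgg _ _ _ _), mul_assoc]
      · rw [if_neg (fun h => h3 (hGP.mp h).2.2), if_neg h3, mul_zero, mul_zero]
    · rw [if_neg (fun h => h2 (hGP.mp h).2.1), if_neg h2, zero_mul, mul_zero]
  · rw [if_neg (fun h => h1 (hGP.mp h).1), if_neg h1, zero_mul]

theorem pf_PRD (hMSG : T_MSG) (hMSL : T_MSL) (hGIN : T_GIN) (hGGS : T_GGS) : T_PRD := by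
  classical
  intro K ν _ hexp γ b b0 q R ℓ hγ hq hℓ hb hb0 hf ht h0 L hL
  have _ := hMSL
  obtain ⟨_, hgg, _, _⟩ := hGGS K ℓ hℓ
  have hAi : ∀ (t : Bool) (n : ℕ) (t' : Bool), 1 ≤ n →
      Integrable (AA K q ℓ γ t n t') (iid ν) := by
    intro t n t' hn
    have h := (hGIN K ν hexp γ ℓ t t' n hγ hℓ hn).indicator (hMSG K ℓ q t t' n).2.1
    refine h.congr (Filter.Eventually.of_forall fun x => ?_)
    unfold AA
    by_cases hx : Gd q ℓ t n x
    · rw [if_pos hx]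
      exact Set.indicator_of_mem (s := {x : ℕ → ℝ | Gd q ℓ t n x}) hx _
    · rw [if_neg hx]
      exact Set.indicator_of_notMem (s := {x : ℕ → ℝ | Gd q ℓ t n x}) hx _
  have hAd : ∀ (t : Bool) (n : ℕ) (t' : Bool), DepLt (2 * n * ℓ) (AA K q ℓ γ t n t') := by
    intro t n t' x x' hx
    obtain ⟨_, _, h3, h4⟩ := hMSG K ℓ q t t' n
    unfold AA
    rw [h3 x x' hx]
    have h5 := h4 x x' hx
    by_cases hg : Gd q ℓ t n x
    · rw [if_pos hg, if_pos (h5 ▸ hg)]
    · rw [if_neg hg, if_neg (h5 ▸ hg)]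
  have hA0 : ∀ (t : Bool) (n : ℕ) (t' : Bool) (x : ℕ → ℝ), 0 ≤ AA K q ℓ γ t n t' x := by
    intro t n t' x
    unfold AA
    split_ifs
    · exact Real.rpow_nonneg (hgg _ _ _ _) _
    · exact le_refl _
  have main : ∀ M : List (ℕ × ℕ), okL q R M → Integrable (JJ K q ℓ γ M) (iid ν) ∧
      b ^ (2 * M.length) ≤ ∫ x, JJ K q ℓ γ M x ∂(iid ν) := by
    intro M
    induction M with
    | nil =>
      intro _
      have h : JJ K q ℓ γ [] = fun _ => 1 := by
        funext x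
        simp [JJ, GP, ff]
      rw [h]
      refine ⟨integrable_const _, ?_⟩
      simp
    | cons p M ih =>
      intro hM
      obtain ⟨i1, i2⟩ := ih (fun r hr => hM r (List.mem_cons_of_mem _ hr))
      obtain ⟨p1, p2, p3, p4⟩ := hM p List.mem_cons_self
      have hn1 : 1 ≤ p.1 := by omega
      have hn2 : 1 ≤ p.2 := by omega
      have hg : Integrable (fun y => AA K q ℓ γ true p.2 false y *
          JJ K q ℓ γ M (shift (2 * p.2 * ℓ) y)) (iid ν) :=
        integrable_mul_shift ν (hAd true p.2 false) (hAi true p.2 false hn2) i1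
      have hJ : JJ K q ℓ γ (p :: M) = fun x => AA K q ℓ γ false p.1 true x *
          (fun y => AA K q ℓ γ true p.2 false y * JJ K q ℓ γ M (shift (2 * p.2 * ℓ) y))
            (shift (2 * p.1 * ℓ) x) := by
        funext x
        exact JJ_cons K q ℓ γ hgg p M x
      rw [hJ]
      refine ⟨integrable_mul_shift ν (hAd false p.1 true) (hAi false p.1 true hn1) hg, ?_⟩
      rw [integral_mul_shift ν (hAd false p.1 true) (hAi false p.1 true hn1).aestronglyMeasurable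
        hg.aestronglyMeasurable,
        integral_mul_shift ν (hAd true p.2 false) (hAi true p.2 false hn2).aestronglyMeasurable
        i1.aestronglyMeasurable]
      have e1 : b ≤ ∫ x, AA K q ℓ γ false p.1 true x ∂(iid ν) := hf p.1 p1 p2
      have e2 : b ≤ ∫ x, AA K q ℓ γ true p.2 false x ∂(iid ν) := ht p.2 p3 p4
      have e3 : b ^ (2 * (p :: M).length) = b * (b * b ^ (2 * M.length)) := by
        rw [List.length_cons, mul_add, pow_add]
        ring
      rw [e3]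
      have hb2 : 0 ≤ b ^ (2 * M.length) := pow_nonneg hb _
      refine mul_le_mul e1 (mul_le_mul e2 i2 hb2 (hb.trans e2)) (mul_nonneg hb hb2)
        (hb.trans e1)
  obtain ⟨i1, i2⟩ := main L hL
  have hd1 : DepLt (2 * ℓ) (fun x => gg K ℓ false 1 false x ^ γ) := by
    intro x x' hx
    have h := (hMSG K ℓ q false false 1).2.2.1
    rw [mul_one] at h
    beta_reduce
    rw [h x x' hx]
  have hi1 : Integrable (fun x => gg K ℓ false 1 false x ^ γ) (iid ν) :=
    hGIN K ν hexp γ ℓ false false 1 hγ hℓ le_rfl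
  have hfin : (fun x => (if GB q ℓ L x then FB K ℓ L x ^ γ else 0 : ℝ)) =
      fun x => (fun y => gg K ℓ false 1 false y ^ γ) x * JJ K q ℓ γ L (shift (2 * ℓ) x) := by
    funext x
    unfold JJ GB FB
    by_cases h : GP q ℓ L (shift (2 * ℓ) x)
    · rw [if_pos h, if_pos h, Real.mul_rpow (hgg _ _ _ _) (ff_nonneg K ℓ hgg _ _)]
    · rw [if_neg h, if_neg h, mul_zero]
  rw [hfin, integral_mul_shift ν hd1 hi1.aestronglyMeasurable i1.aestronglyMeasurable]
  have hb2 : 0 ≤ b ^ (2 * L.length) := pow_nonneg hb _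
  exact mul_le_mul h0 i2 hb2 (hb0.trans h0)

end Pool.Agent.H59.CG.PRD
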